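import Mathlib

/-!
# Nontrapping Riemannian manifolds without strictly convex functions

For every `n ≥ 4` we construct a smooth Riemannian metric on the closed unit ball of `ℝⁿ` which is
nontrapping (strictly convex boundary, and no unit-speed geodesic stays in the ball for all
positive times) and which carries no strictly convex function.
-/

namespace Pool.Agent.Lib_MP_a29272_old.NontrappingNoConvex

open Set Metric
open scoped ContDiff RealInnerProductSpace

section Definitions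

variable {E : Type*} [NormedAddCommGroup E] [InnerProductSpace ℝ E]

/-- `g` is a smooth Riemannian metric on the closed unit ball `M` of `E`: a smooth field of
symmetric bilinear forms on `E`, positive definite at every point of `M`. -/
def IsRiemannianMetric (g : E → E →L[ℝ] E →L[ℝ] ℝ) : Prop :=
  ContDiff ℝ ∞ g ∧ (∀ x v w, g x v w = g x w v) ∧
    ∀ x ∈ closedBall (0 : E) 1, ∀ v, v ≠ 0 → 0 < g x v v

/-- The Christoffel symbols `Γ_x(v, w)` of the Levi-Civita connection of `g`: the vector with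
`g_x(Γ_x(v, w), z) = (1/2) (∂_v g (w, z) + ∂_w g (v, z) - ∂_z g (v, w))` for all `z`. -/
noncomputable def christoffel (g : E → E →L[ℝ] E →L[ℝ] ℝ) (x v w : E) : E :=
  (g x).inverse ((1 / 2 : ℝ) •
    (fderiv ℝ g x v w + fderiv ℝ g x w v - ((fderiv ℝ g x).flip v).flip w))

/-- The covariant Hessian `∇²f_x(v, w) = D²f_x(v, w) - Df_x(Γ_x(v, w))`. -/
noncomputable def hessian (g : E → E →L[ℝ] E →L[ℝ] ℝ) (f : E → ℝ) (x v w : E) : ℝ :=
  fderiv ℝ (fderiv ℝ f) x v w - fderiv ℝ f x (christoffel g x v w)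

/-- `γ` is a geodesic of `g` on the time set `s`, with velocity `γ'`:
`γ'' + Γ_γ(γ', γ') = 0`. -/
def IsGeodesicOn (g : E → E →L[ℝ] E →L[ℝ] ℝ) (γ γ' : ℝ → E) (s : Set ℝ) : Prop :=
  ∀ t ∈ s, HasDerivWithinAt γ (γ' t) s t ∧
    HasDerivWithinAt γ' (-(christoffel g (γ t) (γ' t) (γ' t))) s t

/-- The boundary of `M` (the unit sphere) is strictly convex for `g`: the second fundamental form
with respect to the inward normal is positive definite.  That is, for every smooth curve `c` in the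
unit sphere with `c'(0) ≠ 0` and every inward `g`-normal vector `ν` at `c(0)`, the covariant
acceleration `c'' + Γ(c', c')` of `c` at time `0` has positive `g`-inner product with `ν`. -/
def StrictlyConvexBoundary (g : E → E →L[ℝ] E →L[ℝ] ℝ) : Prop :=
  ∀ c : ℝ → E, ContDiff ℝ ∞ c → (∀ t, ‖c t‖ = 1) → deriv c 0 ≠ 0 →
    ∀ ν : E, (∀ w, ⟪c 0, w⟫ = 0 → g (c 0) ν w = 0) → ⟪c 0, ν⟫ < 0 →
      0 < g (c 0) ν (deriv (deriv c) 0 + christoffel g (c 0) (deriv c 0) (deriv c 0))

/-- `(M, g)` is nontrapping: its boundary is strictly convex and there is a finite bound `T` on the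
length of all unit-speed geodesics `γ : [0, τ] → M`.  In particular no unit-speed geodesic stays in
the closed unit ball `M` for infinite time. -/
def Nontrapping (g : E → E →L[ℝ] E →L[ℝ] ℝ) : Prop :=
  StrictlyConvexBoundary g ∧
    ∃ T : ℝ, ∀ (τ : ℝ) (γ γ' : ℝ → E), IsGeodesicOn g γ γ' (Icc 0 τ) →
      (∀ t ∈ Icc 0 τ, γ t ∈ closedBall (0 : E) 1) →
        (∀ t ∈ Icc 0 τ, g (γ t) (γ' t) (γ' t) = 1) → τ ≤ T

end Definitions

section Algebra

variable {E : Type*} [NormedAddCommGroup E] [InnerProductSpace ℝ E] [FiniteDimensional ℝ E]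

lemma inverse_spec (B : E →L[ℝ] E →L[ℝ] ℝ) (hB : ∀ v, v ≠ 0 → 0 < B v v) (ℓ : E →L[ℝ] ℝ) :
    B (B.inverse ℓ) = ℓ := by
  have hinj : Function.Injective B := by
    rw [injective_iff_map_eq_zero]
    intro v hv
    by_contra hne
    have := hB v hne
    rw [hv] at this
    simp at this
  have hfin : Module.finrank ℝ E = Module.finrank ℝ (E →L[ℝ] ℝ) := by
    have h1 : Module.finrank ℝ (E →ₗ[ℝ] ℝ) = Module.finrank ℝ (E →L[ℝ] ℝ) :=
      LinearEquiv.finrank_eq LinearMap.toContinuousLinearMap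
    rw [← h1]
    exact (Subspace.dual_finrank_eq (K := ℝ) (V := E)).symm
  let L : E ≃ₗ[ℝ] (E →L[ℝ] ℝ) :=
    LinearEquiv.ofBijective (B : E →ₗ[ℝ] (E →L[ℝ] ℝ))
      ⟨hinj, (LinearMap.injective_iff_surjective_of_finrank_eq_finrank hfin).1 hinj⟩
  let e : E ≃L[ℝ] (E →L[ℝ] ℝ) := L.toContinuousLinearEquiv
  have he : (e : E →L[ℝ] (E →L[ℝ] ℝ)) = B := by
    ext v
    rfl
  have : B.inverse = e.symm := by
    rw [← he]
    exact ContinuousLinearMap.inverse_equiv e
  rw [this]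
  have h2 : B (e.symm ℓ) = e (e.symm ℓ) := by
    rw [← he]
    rfl
  exact h2.trans (e.apply_symm_apply ℓ)

lemma christoffel_spec (g : E → E →L[ℝ] E →L[ℝ] ℝ) (x : E) (hx : ∀ v, v ≠ 0 → 0 < g x v v)
    (v w z : E) :
    g x (christoffel g x v w) z =
      (1 / 2) * (fderiv ℝ g x v w z + fderiv ℝ g x w v z - fderiv ℝ g x z v w) := by
  rw [christoffel, inverse_spec (g x) hx]
  simp

end Algebra

section Construction

variable {E : Type*} [NormedAddCommGroup E] [InnerProductSpace ℝ E]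

/-- the coordinate functional `x ↦ ⟪e j, x⟫` -/
noncomputable def X (e : Fin 4 → E) (j : Fin 4) : E →L[ℝ] ℝ := innerSL ℝ (e j)

/-- first component of the imaginary part of the quaternion `conj x * v` -/
noncomputable def α (e : Fin 4 → E) : E →L[ℝ] E →L[ℝ] ℝ :=
  (X e 0).smulRight (X e 1) - (X e 1).smulRight (X e 0) - (X e 2).smulRight (X e 3)
    + (X e 3).smulRight (X e 2)

/-- second component of the imaginary part of the quaternion `conj x * v` -/
noncomputable def β (e : Fin 4 → E) : E →L[ℝ] E →L[ℝ] ℝ :=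
  (X e 0).smulRight (X e 2) - (X e 2).smulRight (X e 0) - (X e 3).smulRight (X e 1)
    + (X e 1).smulRight (X e 3)

lemma α_apply (e : Fin 4 → E) (x v : E) :
    α e x v = X e 0 x * X e 1 v - X e 1 x * X e 0 v - X e 2 x * X e 3 v + X e 3 x * X e 2 v := by
  simp [α]

lemma β_apply (e : Fin 4 → E) (x v : E) :
    β e x v = X e 0 x * X e 2 v - X e 2 x * X e 0 v - X e 3 x * X e 1 v + X e 1 x * X e 3 v := by
  simp [β]

/-- squared norm of the four distinguished coordinates -/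
noncomputable def S (e : Fin 4 → E) (x : E) : ℝ :=
  X e 0 x ^ 2 + X e 1 x ^ 2 + X e 2 x ^ 2 + X e 3 x ^ 2

/-- polarisation of `S` -/
noncomputable def S' (e : Fin 4 → E) (x u : E) : ℝ :=
  X e 0 x * X e 0 u + X e 1 x * X e 1 u + X e 2 x * X e 2 u + X e 3 x * X e 3 u

/-- first coefficient -/
noncomputable def A (e : Fin 4 → E) (x : E) : ℝ :=
  (1 / 2) * (1 - ⟪x, x⟫) * Real.sin (10 - 20 * S e x)

/-- second coefficient -/
noncomputable def C (e : Fin 4 → E) (x : E) : ℝ :=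
  (1 / 2) * (1 - ⟪x, x⟫) * Real.cos (10 - 20 * S e x)

/-- the inner product as a continuous bilinear form -/
noncomputable def inn : E →L[ℝ] E →L[ℝ] ℝ := innerSL ℝ

lemma inn_apply (v w : E) : (inn : E →L[ℝ] E →L[ℝ] ℝ) v w = ⟪v, w⟫ := rfl

/-- The metric. -/
noncomputable def g (e : Fin 4 → E) (x : E) : E →L[ℝ] E →L[ℝ] ℝ :=
  inn + A e x • ((α e x).smulRight (α e x) - (β e x).smulRight (β e x))
    + C e x • ((α e x).smulRight (β e x) + (β e x).smulRight (α e x))

lemma g_apply (e : Fin 4 → E) (x v w : E) :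
    g e x v w = ⟪v, w⟫ + A e x * (α e x v * α e x w - β e x v * β e x w)
      + C e x * (α e x v * β e x w + β e x v * α e x w) := by
  simp only [g, add_apply, inn_apply, smul_apply,
    sub_apply, ContinuousLinearMap.smulRight_apply, smul_eq_mul]

lemma S_contDiff (e : Fin 4 → E) : ContDiff ℝ ∞ (S e) := by
  unfold S
  fun_prop

lemma A_contDiff (e : Fin 4 → E) : ContDiff ℝ ∞ (A e) := by
  have h := S_contDiff e
  have h2 : ContDiff ℝ ∞ fun x : E => ⟪x, x⟫ := contDiff_id.inner ℝ contDiff_id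
  unfold A
  exact (contDiff_const.mul (contDiff_const.sub h2)).mul
    ((contDiff_const.sub (contDiff_const.mul h)).sin)

lemma C_contDiff (e : Fin 4 → E) : ContDiff ℝ ∞ (C e) := by
  have h := S_contDiff e
  have h2 : ContDiff ℝ ∞ fun x : E => ⟪x, x⟫ := contDiff_id.inner ℝ contDiff_id
  unfold C
  exact (contDiff_const.mul (contDiff_const.sub h2)).mul
    ((contDiff_const.sub (contDiff_const.mul h)).cos)

lemma g_contDiff (e : Fin 4 → E) : ContDiff ℝ ∞ (g e) := by
  have hα : ContDiff ℝ ∞ (fun x => α e x) := (α e).contDiff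
  have hβ : ContDiff ℝ ∞ (fun x => β e x) := (β e).contDiff
  unfold g
  exact (contDiff_const.add ((A_contDiff e).smul ((hα.smulRight hα).sub (hβ.smulRight hβ)))).add
    ((C_contDiff e).smul ((hα.smulRight hβ).add (hβ.smulRight hα)))

/-- directional derivative of `A` -/
noncomputable def dA (e : Fin 4 → E) (x u : E) : ℝ :=
  -⟪x, u⟫ * Real.sin (10 - 20 * S e x)
    + (1 / 2) * (1 - ⟪x, x⟫) * (Real.cos (10 - 20 * S e x) * (-40 * S' e x u))

/-- directional derivative of `C` -/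
noncomputable def dC (e : Fin 4 → E) (x u : E) : ℝ :=
  -⟪x, u⟫ * Real.cos (10 - 20 * S e x)
    + (1 / 2) * (1 - ⟪x, x⟫) * (-Real.sin (10 - 20 * S e x) * (-40 * S' e x u))

lemma line_inner (x u : E) : HasDerivAt (fun t : ℝ => (1 / 2) * (1 - ⟪x + t • u, x + t • u⟫))
    (-⟪x, u⟫) 0 := by
  have h : (fun t : ℝ => (1 / 2) * (1 - ⟪x + t • u, x + t • u⟫)) =
      fun t : ℝ => (1 / 2) * (1 - (⟪x, x⟫ + 2 * t * ⟪x, u⟫ + t ^ 2 * ⟪u, u⟫)) := by
    funext t
    rw [inner_add_left, inner_add_right, inner_add_right, real_inner_smul_left,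
      real_inner_smul_right, real_inner_smul_left, real_inner_smul_right, real_inner_comm x u]
    ring
  rw [h]
  have h1 : HasDerivAt (fun t : ℝ => (1 / 2) * (1 - (⟪x, x⟫ + 2 * t * ⟪x, u⟫ + t ^ 2 * ⟪u, u⟫)))
      ((1 / 2) * (0 - ((0 + 2 * 1 * ⟪x, u⟫) + (2 * (0 : ℝ) ^ 1 * 1) * ⟪u, u⟫))) 0 := by
    refine ((hasDerivAt_const _ _).sub (((hasDerivAt_const _ _).add
      (((hasDerivAt_id _).const_mul 2).mul_const _)).add
        (((hasDerivAt_id _).pow 2).mul_const _))).const_mul _ |>.congr_deriv ?_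
    simp
  convert h1 using 1
  ring

lemma line_S (e : Fin 4 → E) (x u : E) :
    HasDerivAt (fun t : ℝ => 10 - 20 * S e (x + t • u)) (-40 * S' e x u) 0 := by
  have hlin : ∀ j, HasDerivAt (fun t : ℝ => X e j (x + t • u)) (X e j u) 0 := by
    intro j
    have : (fun t : ℝ => X e j (x + t • u)) = fun t : ℝ => X e j x + t * X e j u := by
      funext t
      simp
    rw [this]
    simpa using ((hasDerivAt_id (0 : ℝ)).mul_const (X e j u)).const_add (X e j x)
  have h : HasDerivAt (fun t : ℝ => 10 - 20 * S e (x + t • u))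
      (-(20 * (2 * X e 0 x * X e 0 u + 2 * X e 1 x * X e 1 u + 2 * X e 2 x * X e 2 u
        + 2 * X e 3 x * X e 3 u))) 0 := by
    unfold S
    have := (((((hlin 0).pow 2).add ((hlin 1).pow 2)).add ((hlin 2).pow 2)).add
      ((hlin 3).pow 2)).const_mul 20 |>.const_sub 10
    refine this.congr_deriv ?_
    simp
  refine h.congr_deriv ?_
  unfold S'
  ring

lemma line_A (e : Fin 4 → E) (x u : E) :
    HasDerivAt (fun t : ℝ => A e (x + t • u)) (dA e x u) 0 := by
  unfold A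
  have := (line_inner x u).mul ((line_S e x u).sin)
  refine this.congr_deriv ?_
  simp [dA]

lemma line_C (e : Fin 4 → E) (x u : E) :
    HasDerivAt (fun t : ℝ => C e (x + t • u)) (dC e x u) 0 := by
  unfold C
  have := (line_inner x u).mul ((line_S e x u).cos)
  refine this.congr_deriv ?_
  simp [dC]

/-- directional derivative of the metric -/
noncomputable def dg (e : Fin 4 → E) (x u v w : E) : ℝ :=
  dA e x u * (α e x v * α e x w - β e x v * β e x w)
    + A e x * (α e u v * α e x w + α e x v * α e u w - β e u v * β e x w - β e x v * β e u w)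
    + dC e x u * (α e x v * β e x w + β e x v * α e x w)
    + C e x * (α e u v * β e x w + α e x v * β e u w + β e u v * α e x w + β e x v * α e u w)

lemma line_g (e : Fin 4 → E) (x u v w : E) :
    HasDerivAt (fun t : ℝ => g e (x + t • u) v w) (dg e x u v w) 0 := by
  have hα : ∀ v, HasDerivAt (fun t : ℝ => α e (x + t • u) v) (α e u v) 0 := by
    intro v
    have : (fun t : ℝ => α e (x + t • u) v) = fun t : ℝ => α e x v + t * α e u v := by
      funext t
      simp
    rw [this]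
    simpa using ((hasDerivAt_id (0 : ℝ)).mul_const (α e u v)).const_add (α e x v)
  have hβ : ∀ v, HasDerivAt (fun t : ℝ => β e (x + t • u) v) (β e u v) 0 := by
    intro v
    have : (fun t : ℝ => β e (x + t • u) v) = fun t : ℝ => β e x v + t * β e u v := by
      funext t
      simp
    rw [this]
    simpa using ((hasDerivAt_id (0 : ℝ)).mul_const (β e u v)).const_add (β e x v)
  simp only [g_apply]
  have h1 := ((line_A e x u).mul (((hα v).mul (hα w)).sub ((hβ v).mul (hβ w))))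
  have h2 := ((line_C e x u).mul (((hα v).mul (hβ w)).add ((hβ v).mul (hα w))))
  have h3 := (h1.add h2).const_add ⟪v, w⟫
  refine (h3.congr_of_eventuallyEq ?_).congr_deriv ?_
  · filter_upwards with t
    simp only [Pi.add_apply, Pi.mul_apply, Pi.sub_apply]
    ring
  · simp only [zero_smul, add_zero, Pi.add_apply, Pi.mul_apply, Pi.sub_apply, dg]
    ring

lemma fderiv_g (e : Fin 4 → E) (x u v w : E) : fderiv ℝ (g e) x u v w = dg e x u v w := by
  have hd : DifferentiableAt ℝ (g e) x :=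
    ((g_contDiff e).differentiable (by simp)) x
  have hline : HasDerivAt (fun t : ℝ => x + t • u) u 0 := by
    simpa using ((hasDerivAt_id (0 : ℝ)).smul_const u).const_add x
  have h0 : HasFDerivAt (g e) (fderiv ℝ (g e) x) (x + (0 : ℝ) • u) := by
    simpa using hd.hasFDerivAt
  have h1 : HasDerivAt (fun t : ℝ => g e (x + t • u)) (fderiv ℝ (g e) x u) 0 :=
    HasFDerivAt.comp_hasDerivAt (f := fun t : ℝ => x + t • u) (l := g e) 0 h0 hline
  have h2 : HasDerivAt (fun t : ℝ => g e (x + t • u) v w) (fderiv ℝ (g e) x u v w) 0 := by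
    have h3 := (h1.clm_apply (hasDerivAt_const (0 : ℝ) v)).clm_apply (hasDerivAt_const (0 : ℝ) w)
    simpa using h3
  exact h2.unique (line_g e x u v w)

/-! ### Algebraic facts -/

lemma bessel {e : Fin 4 → E} (he : Orthonormal ℝ e) (v : E) : S e v ≤ ⟪v, v⟫ := by
  have h := he.sum_inner_products_le v (s := Finset.univ)
  rw [Fin.sum_univ_four] at h
  rw [real_inner_self_eq_norm_sq]
  have h' : ∀ j, ‖⟪e j, v⟫‖ ^ 2 = X e j v ^ 2 := by
    intro j
    rw [Real.norm_eq_abs, sq_abs]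
    rfl
  simp only [h'] at h
  exact h

lemma S_nonneg (e : Fin 4 → E) (v : E) : 0 ≤ S e v := by
  unfold S
  positivity

lemma αβ_le (e : Fin 4 → E) (x v : E) : α e x v ^ 2 + β e x v ^ 2 ≤ S e x * S e v := by
  rw [α_apply, β_apply]
  unfold S
  nlinarith [sq_nonneg (X e 0 x * X e 0 v + X e 1 x * X e 1 v + X e 2 x * X e 2 v
    + X e 3 x * X e 3 v), sq_nonneg (X e 0 x * X e 3 v - X e 3 x * X e 0 v - X e 1 x * X e 2 v
    + X e 2 x * X e 1 v)]

lemma quad {P Q r a b : ℝ} (hr : 0 ≤ r) (h : P ^ 2 + Q ^ 2 ≤ r ^ 2) :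
    |P * (a * a - b * b) + 2 * Q * (a * b)| ≤ r * (a ^ 2 + b ^ 2) := by
  apply abs_le_of_sq_le_sq
  · have h1 : (P * (a * a - b * b) + 2 * Q * (a * b)) ^ 2
        ≤ (P ^ 2 + Q ^ 2) * (a ^ 2 + b ^ 2) ^ 2 := by
      nlinarith [sq_nonneg (P * (2 * (a * b)) - Q * (a * a - b * b))]
    have h2 : (P ^ 2 + Q ^ 2) * (a ^ 2 + b ^ 2) ^ 2 ≤ r ^ 2 * (a ^ 2 + b ^ 2) ^ 2 := by
      gcongr
    calc _ ≤ _ := h1
      _ ≤ _ := h2
      _ = _ := by ring
  · positivity

/-- scaled version of `quad`: if `s² (P² + Q²) ≤ c²` and `a² + b² ≤ s m` then the quadratic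
expression is at most `c m` in absolute value. -/
lemma quad' {P Q s m c a b : ℝ} (_hs : 0 ≤ s) (hm : 0 ≤ m) (hc : 0 ≤ c)
    (h : (s * P) ^ 2 + (s * Q) ^ 2 ≤ c ^ 2) (hab : a ^ 2 + b ^ 2 ≤ s * m) :
    |P * (a * a - b * b) + 2 * Q * (a * b)| ≤ c * m := by
  have h1 := quad (P := P) (Q := Q) (r := Real.sqrt (P ^ 2 + Q ^ 2)) (a := a) (b := b)
    (Real.sqrt_nonneg _) (by rw [Real.sq_sqrt (by positivity)])
  have h2 : s * Real.sqrt (P ^ 2 + Q ^ 2) ≤ c := by
    apply le_of_sq_le_sq _ hc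
    rw [mul_pow, Real.sq_sqrt (by positivity)]
    nlinarith
  calc _ ≤ _ := h1
    _ ≤ Real.sqrt (P ^ 2 + Q ^ 2) * (s * m) := by gcongr
    _ = (s * Real.sqrt (P ^ 2 + Q ^ 2)) * m := by ring
    _ ≤ c * m := by gcongr

lemma bound1 {s σ : ℝ} (hs : 0 ≤ s) (h : s ≤ σ) (h1 : σ ≤ 1) :
    s ^ 2 * ((1 - 3 / 2 * σ) ^ 2 + (1 - σ) ^ 2 * (5 - 10 * s) ^ 2) ≤ (7 / 10) ^ 2 := by
  have ha : (s * (1 - 3 / 2 * σ)) ^ 2 ≤ (1 / 2) ^ 2 := by
    apply sq_le_sq'
    · nlinarith
    · nlinarith [sq_nonneg (s - 1 / 3)]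
  have hb : (s * (1 - σ)) ^ 2 ≤ (s * (1 - s)) ^ 2 := by
    apply pow_le_pow_left₀
    · exact mul_nonneg hs (by linarith)
    · exact mul_le_mul_of_nonneg_left (by linarith) hs
  have hc : (s * (1 - s)) ^ 2 * (5 - 10 * s) ^ 2 ≤ 100 / 432 := by
    have hu : (s - 1 / 2) ^ 2 ≤ 1 / 4 := by nlinarith
    have := mul_nonneg (sq_nonneg ((s - 1 / 2) ^ 2 - 1 / 12))
      (show (0 : ℝ) ≤ 1 / 3 - (s - 1 / 2) ^ 2 by linarith)
    nlinarith
  have hd : (s * (1 - σ)) ^ 2 * (5 - 10 * s) ^ 2 ≤ (s * (1 - s)) ^ 2 * (5 - 10 * s) ^ 2 := by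
    gcongr
  nlinarith

lemma AC_sq (e : Fin 4 → E) (x : E) : A e x ^ 2 + C e x ^ 2 = ((1 / 2) * (1 - ⟪x, x⟫)) ^ 2 := by
  unfold A C
  have := Real.sin_sq_add_cos_sq (10 - 20 * S e x)
  linear_combination ((1 / 2) * (1 - ⟪x, x⟫)) ^ 2 * this

lemma mem_ball' {x : E} (hx : x ∈ closedBall (0 : E) 1) : ⟪x, x⟫ ≤ 1 := by
  rw [real_inner_self_eq_norm_sq]
  have : ‖x‖ ≤ 1 := by simpa using hx
  nlinarith [norm_nonneg x]

lemma g_close {e : Fin 4 → E} (he : Orthonormal ℝ e) {x : E} (hx : x ∈ closedBall (0 : E) 1)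
    (v : E) : |g e x v v - ⟪v, v⟫| ≤ (1 / 8) * ⟪v, v⟫ := by
  have h1 : g e x v v - ⟪v, v⟫ = A e x * (α e x v * α e x v - β e x v * β e x v)
      + 2 * C e x * (α e x v * β e x v) := by
    rw [g_apply]
    ring
  rw [h1]
  have hσ := mem_ball' hx
  have hs := bessel he x
  have hs0 := S_nonneg e x
  have hvv : 0 ≤ ⟪v, v⟫ := real_inner_self_nonneg
  refine quad' hs0 hvv (by norm_num) ?_ ?_
  · have h2 := AC_sq e x
    have h3 : (S e x * ((1 / 2) * (1 - ⟪x, x⟫))) ^ 2 ≤ (1 / 8) ^ 2 := by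
      apply sq_le_sq'
      · nlinarith
      · nlinarith [sq_nonneg (S e x - 1 / 2)]
    calc (S e x * A e x) ^ 2 + (S e x * C e x) ^ 2 = S e x ^ 2 * (A e x ^ 2 + C e x ^ 2) := by ring
      _ = (S e x * ((1 / 2) * (1 - ⟪x, x⟫))) ^ 2 := by rw [h2]; ring
      _ ≤ _ := h3
  · calc _ ≤ S e x * S e v := αβ_le e x v
      _ ≤ S e x * ⟪v, v⟫ := by gcongr; exact bessel he v

lemma g_pos {e : Fin 4 → E} (he : Orthonormal ℝ e) {x : E} (hx : x ∈ closedBall (0 : E) 1)
    (v : E) (hv : v ≠ 0) : 0 < g e x v v := by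
  have h := (abs_le.1 (g_close he hx v)).1
  have hvv : 0 < ⟪v, v⟫ := real_inner_self_pos.2 hv
  linarith

lemma g_symm (e : Fin 4 → E) (x v w : E) : g e x v w = g e x w v := by
  rw [g_apply, g_apply, real_inner_comm]
  ring

lemma g_isRiemannianMetric {e : Fin 4 → E} (he : Orthonormal ℝ e) : IsRiemannianMetric (g e) :=
  ⟨g_contDiff e, g_symm e, fun _ hx v hv => g_pos he hx v hv⟩

lemma dg_symm (e : Fin 4 → E) (x u v w : E) : dg e x u v w = dg e x u w v := by
  unfold dg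
  ring

lemma α_self (e : Fin 4 → E) (x : E) : α e x x = 0 := by
  rw [α_apply]; ring

lemma β_self (e : Fin 4 → E) (x : E) : β e x x = 0 := by
  rw [β_apply]; ring

lemma α_anti (e : Fin 4 → E) (x v : E) : α e v x = - α e x v := by
  rw [α_apply, α_apply]; ring

lemma β_anti (e : Fin 4 → E) (x v : E) : β e v x = - β e x v := by
  rw [β_apply, β_apply]; ring

lemma g_self (e : Fin 4 → E) (x w : E) : g e x x w = ⟪x, w⟫ := by
  rw [g_apply, α_self, β_self]; ring

/-! ### Strict convexity of the boundary -/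

lemma inner_christoffel [FiniteDimensional ℝ E] {e : Fin 4 → E} (he : Orthonormal ℝ e) {x : E}
    (hx : x ∈ closedBall (0 : E) 1) (v : E) :
    ⟪x, christoffel (g e) x v v⟫ =
      -(2 * A e x + (1 / 2) * dA e x x) * (α e x v * α e x v - β e x v * β e x v)
        - 2 * (2 * C e x + (1 / 2) * dC e x x) * (α e x v * β e x v) := by
  rw [← g_self e x, g_symm, christoffel_spec (g e) x (g_pos he hx)]
  simp only [fderiv_g]
  unfold dg
  rw [α_self, β_self, α_anti e x v, β_anti e x v]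
  simp only [α_self, β_self]
  ring

lemma boundary_convex [FiniteDimensional ℝ E] {e : Fin 4 → E} (he : Orthonormal ℝ e) : StrictlyConvexBoundary (g e) := by
  intro c hc hnorm hc' ν hν hin
  set x := c 0 with hx
  set v := deriv c 0 with hv
  set a := deriv (deriv c) 0 with ha
  have hxx : ⟪x, x⟫ = 1 := by
    rw [real_inner_self_eq_norm_sq, hnorm 0]
    norm_num
  have hxball : x ∈ closedBall (0 : E) 1 := by
    simp [hx, hnorm 0]
  -- derivatives of `⟪c, c⟫ = 1`
  have hd1 : ∀ t, HasDerivAt c (deriv c t) t := fun t =>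
    ((hc.differentiable (by simp)) t).hasDerivAt
  have hc2 : ContDiff ℝ ∞ (deriv c) := by
    have := (contDiff_infty_iff_deriv (f := c)).1 hc
    exact this.2
  have hd2 : ∀ t, HasDerivAt (deriv c) (deriv (deriv c) t) t := fun t =>
    ((hc2.differentiable (by simp)) t).hasDerivAt
  have h1 : ∀ t, ⟪c t, deriv c t⟫ = 0 := by
    intro t
    have h := (hd1 t).inner ℝ (hd1 t)
    have h2 : (fun t => ⟪c t, c t⟫) = fun _ => (1 : ℝ) := by
      funext s
      rw [real_inner_self_eq_norm_sq, hnorm s]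
      norm_num
    rw [h2] at h
    have h3 := h.unique (hasDerivAt_const t (1 : ℝ))
    rw [real_inner_comm (c t) (deriv c t)] at h3
    linarith
  have h2 : ⟪x, a⟫ = -⟪v, v⟫ := by
    have h := (hd1 0).inner ℝ (hd2 0)
    have h2 : (fun t => ⟪c t, deriv c t⟫) = fun _ => (0 : ℝ) := by
      funext s
      exact h1 s
    rw [h2] at h
    have h3 := h.unique (hasDerivAt_const 0 (0 : ℝ))
    linarith
  -- `g (ν, ·) = ⟪ν, x⟫ ⟪x, ·⟫`
  have h3 : ∀ w, g e x ν w = ⟪x, ν⟫ * ⟪x, w⟫ := by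
    intro w
    have h4 : ⟪x, w - ⟪x, w⟫ • x⟫ = 0 := by
      rw [inner_sub_right, real_inner_smul_right, hxx]
      ring
    have h5 := hν _ h4
    rw [map_sub, map_smul, g_symm e x ν x, g_self] at h5
    simp only [smul_eq_mul] at h5
    linarith
  rw [h3, inner_add_right, h2, inner_christoffel he hxball]
  have hvv : 0 < ⟪v, v⟫ := real_inner_self_pos.2 hc'
  have hAC : A e x = 0 ∧ C e x = 0 := by
    unfold A C
    rw [hxx]
    simp
  have hdA : dA e x x = -Real.sin (10 - 20 * S e x) := by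
    unfold dA
    rw [hxx]
    ring
  have hdC : dC e x x = -Real.cos (10 - 20 * S e x) := by
    unfold dC
    rw [hxx]
    ring
  rw [hAC.1, hAC.2, hdA, hdC]
  have hs := bessel he x
  rw [hxx] at hs
  have h6 : |(-(1 / 2) * Real.sin (10 - 20 * S e x)) * (α e x v * α e x v - β e x v * β e x v)
      + 2 * (-(1 / 2) * Real.cos (10 - 20 * S e x)) * (α e x v * β e x v)| ≤ (1 / 2) * ⟪v, v⟫ := by
    refine quad' (S_nonneg e x) hvv.le (by norm_num) ?_ ?_
    · have h7 := Real.sin_sq_add_cos_sq (10 - 20 * S e x)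
      have h8 : (S e x) ^ 2 ≤ 1 := by nlinarith [S_nonneg e x]
      calc _ = (1 / 2) ^ 2 * (S e x) ^ 2 * (Real.sin (10 - 20 * S e x) ^ 2
            + Real.cos (10 - 20 * S e x) ^ 2) := by ring
        _ = (1 / 2) ^ 2 * (S e x) ^ 2 := by rw [h7]; ring
        _ ≤ _ := by nlinarith
    · calc _ ≤ S e x * S e v := αβ_le e x v
        _ ≤ S e x * ⟪v, v⟫ := by
          have := S_nonneg e x
          gcongr
          exact bessel he v
  have h9 := (abs_le.1 h6).1
  have h10 : 0 < -⟪x, ν⟫ := by linarith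
  have h11 : 0 < ⟪v, v⟫ + ((-(1 / 2) * Real.sin (10 - 20 * S e x)) *
      (α e x v * α e x v - β e x v * β e x v)
      + 2 * (-(1 / 2) * Real.cos (10 - 20 * S e x)) * (α e x v * β e x v)) := by linarith
  have := mul_pos h10 h11
  nlinarith

/-! ### No geodesic is trapped -/

/-- right multiplication by the quaternion unit `k` on the four distinguished coordinates -/
noncomputable def K (e : Fin 4 → E) : E →L[ℝ] E :=
  (X e 2).smulRight (e 1) - (X e 3).smulRight (e 0) - (X e 1).smulRight (e 2)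
    + (X e 0).smulRight (e 3)

lemma X_e {e : Fin 4 → E} (he : Orthonormal ℝ e) (i j : Fin 4) :
    X e i (e j) = if i = j then 1 else 0 := by
  have := orthonormal_iff_ite.1 he i j
  exact this

lemma X_K0 {e : Fin 4 → E} (he : Orthonormal ℝ e) (x : E) : X e 0 (K e x) = - X e 3 x := by
  simp [K, X_e he]

lemma X_K1 {e : Fin 4 → E} (he : Orthonormal ℝ e) (x : E) : X e 1 (K e x) = X e 2 x := by
  simp [K, X_e he]

lemma X_K2 {e : Fin 4 → E} (he : Orthonormal ℝ e) (x : E) : X e 2 (K e x) = - X e 1 x := by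
  simp [K, X_e he]

lemma X_K3 {e : Fin 4 → E} (he : Orthonormal ℝ e) (x : E) : X e 3 (K e x) = X e 0 x := by
  simp [K, X_e he]

lemma inner_K (e : Fin 4 → E) (v w : E) : ⟪K e v, w⟫ =
    X e 2 v * X e 1 w - X e 3 v * X e 0 w - X e 1 v * X e 2 w + X e 0 v * X e 3 w := by
  have hX : ∀ j, ⟪e j, w⟫ = X e j w := fun j => rfl
  simp only [K, add_apply, sub_apply,
    ContinuousLinearMap.smulRight_apply, inner_add_left, inner_sub_left, real_inner_smul_left, hX]

/-- The (linear) vector field `W(x) = x - 5 x k`, which is expanding for `g`. -/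
noncomputable def W (e : Fin 4 → E) : E →L[ℝ] E := ContinuousLinearMap.id ℝ E - (5 : ℝ) • K e

lemma W_apply (e : Fin 4 → E) (x : E) : W e x = x - (5 : ℝ) • K e x := by
  simp [W]

lemma inner_W (e : Fin 4 → E) (v : E) : ⟪W e v, v⟫ = ⟪v, v⟫ := by
  rw [W_apply, inner_sub_left, real_inner_smul_left, inner_K]
  ring

lemma inner_W' (e : Fin 4 → E) (v : E) : ⟪v, W e v⟫ = ⟪v, v⟫ := by
  rw [real_inner_comm, inner_W]

lemma S'_W {e : Fin 4 → E} (he : Orthonormal ℝ e) (x : E) : S' e x (W e x) = S e x := by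
  unfold S' S
  simp only [W_apply, map_sub, map_smul, smul_eq_mul, X_K0 he, X_K1 he, X_K2 he, X_K3 he]
  ring

lemma α_W {e : Fin 4 → E} (he : Orthonormal ℝ e) (x v : E) :
    α e (W e x) v + α e x (W e v) = 2 * α e x v - 10 * β e x v := by
  rw [α_apply, α_apply, α_apply, β_apply]
  simp only [W_apply, map_sub, map_smul, smul_eq_mul, X_K0 he, X_K1 he,
    X_K2 he, X_K3 he]
  ring

lemma β_W {e : Fin 4 → E} (he : Orthonormal ℝ e) (x v : E) :
    β e (W e x) v + β e x (W e v) = 2 * β e x v + 10 * α e x v := by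
  rw [β_apply, β_apply, β_apply, α_apply]
  simp only [W_apply, map_sub, map_smul, smul_eq_mul, X_K0 he, X_K1 he,
    X_K2 he, X_K3 he]
  ring

/-- half the Lie derivative of `g` along `W` -/
lemma lie_eq {e : Fin 4 → E} (he : Orthonormal ℝ e) (x v : E) :
    g e x (W e v) v + (1 / 2) * dg e x (W e x) v v = ⟪v, v⟫
      + ((1 / 2) * dA e x (W e x) + 2 * A e x + 10 * C e x)
        * (α e x v * α e x v - β e x v * β e x v)
      + 2 * ((1 / 2) * dC e x (W e x) + 2 * C e x - 10 * A e x) * (α e x v * β e x v) := by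
  have h1 : α e (W e x) v = 2 * α e x v - 10 * β e x v - α e x (W e v) := by
    linarith [α_W he x v]
  have h2 : β e (W e x) v = 2 * β e x v + 10 * α e x v - β e x (W e v) := by
    linarith [β_W he x v]
  rw [g_apply, inner_W, dg, h1, h2]
  ring

lemma lie_pos {e : Fin 4 → E} (he : Orthonormal ℝ e) {x : E} (hx : x ∈ closedBall (0 : E) 1)
    (v : E) : (3 / 10) * ⟪v, v⟫ ≤ g e x (W e v) v + (1 / 2) * dg e x (W e x) v v := by
  rw [lie_eq he]
  have hσ := mem_ball' hx
  have hs := bessel he x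
  have hs0 := S_nonneg e x
  have hvv : 0 ≤ ⟪v, v⟫ := real_inner_self_nonneg
  have key : |((1 / 2) * dA e x (W e x) + 2 * A e x + 10 * C e x)
        * (α e x v * α e x v - β e x v * β e x v)
      + 2 * ((1 / 2) * dC e x (W e x) + 2 * C e x - 10 * A e x) * (α e x v * β e x v)|
      ≤ (7 / 10) * ⟪v, v⟫ := by
    refine quad' hs0 hvv (by norm_num) ?_ ?_
    · have h7 := Real.sin_sq_add_cos_sq (10 - 20 * S e x)
      have hb := bound1 hs0 hs hσ
      have e1 : (1 / 2) * dA e x (W e x) + 2 * A e x + 10 * C e x =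
          (1 - 3 / 2 * ⟪x, x⟫) * Real.sin (10 - 20 * S e x)
            + (1 - ⟪x, x⟫) * (5 - 10 * S e x) * Real.cos (10 - 20 * S e x) := by
        unfold dA A C
        rw [S'_W he, inner_W']
        ring
      have e2 : (1 / 2) * dC e x (W e x) + 2 * C e x - 10 * A e x =
          (1 - 3 / 2 * ⟪x, x⟫) * Real.cos (10 - 20 * S e x)
            - (1 - ⟪x, x⟫) * (5 - 10 * S e x) * Real.sin (10 - 20 * S e x) := by
        unfold dC A C
        rw [S'_W he, inner_W']
        ring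
      rw [e1, e2]
      calc _ = S e x ^ 2 * ((1 - 3 / 2 * ⟪x, x⟫) ^ 2 + (1 - ⟪x, x⟫) ^ 2 * (5 - 10 * S e x) ^ 2)
            * (Real.sin (10 - 20 * S e x) ^ 2 + Real.cos (10 - 20 * S e x) ^ 2) := by ring
        _ = S e x ^ 2 * ((1 - 3 / 2 * ⟪x, x⟫) ^ 2 + (1 - ⟪x, x⟫) ^ 2 * (5 - 10 * S e x) ^ 2) := by
          rw [h7, mul_one]
        _ ≤ _ := hb
    · calc _ ≤ S e x * S e v := αβ_le e x v
        _ ≤ S e x * ⟪v, v⟫ := by gcongr; exact bessel he v
  have := (abs_le.1 key).1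
  linarith

lemma nontrapping [FiniteDimensional ℝ E] {e : Fin 4 → E} (he : Orthonormal ℝ e) :
    Nontrapping (g e) := by
  refine ⟨boundary_convex he, 8 * ((1 / 2) * ((9 / 8) * (‖W e‖ ^ 2) + 1)), ?_⟩
  intro τ γ γ' hgeo hball hunit
  rcases lt_or_ge τ 0 with hτ | hτ
  · exact hτ.le.trans (by positivity)
  -- the function `V = g(W(γ), γ')`
  set V : ℝ → ℝ := fun t => g e (γ t) (W e (γ t)) (γ' t) with hV
  set V' : ℝ → ℝ := fun t => g e (γ t) (W e (γ' t)) (γ' t)
    + (1 / 2) * dg e (γ t) (W e (γ t)) (γ' t) (γ' t) with hV'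
  have hderiv : ∀ t ∈ Icc (0 : ℝ) τ, HasDerivWithinAt V (V' t) (Icc 0 τ) t := by
    intro t ht
    obtain ⟨h1, h2⟩ := hgeo t ht
    have hd : HasFDerivAt (g e) (fderiv ℝ (g e) (γ t)) (γ t) :=
      (((g_contDiff e).differentiable (by simp)) (γ t)).hasFDerivAt
    have h3 : HasDerivWithinAt (fun t => g e (γ t)) (fderiv ℝ (g e) (γ t) (γ' t)) (Icc 0 τ) t :=
      HasFDerivAt.comp_hasDerivWithinAt (l := g e) t hd h1
    have h4 : HasDerivWithinAt (fun t => W e (γ t)) (W e (γ' t)) (Icc 0 τ) t :=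
      (W e).hasFDerivAt.comp_hasDerivWithinAt t h1
    have h5 := (h3.clm_apply h4).clm_apply h2
    refine h5.congr_deriv ?_
    have hpos := g_pos he (hball t ht)
    have h6 : g e (γ t) (W e (γ t)) (-(christoffel (g e) (γ t) (γ' t) (γ' t))) =
        -((1 / 2) * (dg e (γ t) (γ' t) (γ' t) (W e (γ t)) + dg e (γ t) (γ' t) (γ' t) (W e (γ t))
          - dg e (γ t) (W e (γ t)) (γ' t) (γ' t))) := by
      rw [map_neg, g_symm, christoffel_spec (g e) (γ t) hpos]
      simp only [fderiv_g]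
    simp only [add_apply]
    rw [h6, fderiv_g, dg_symm e (γ t) (γ' t) (W e (γ t)) (γ' t), hV']
    ring
  have hlow : ∀ t ∈ Icc (0 : ℝ) τ, (1 / 4 : ℝ) ≤ V' t := by
    intro t ht
    have h1 := lie_pos he (hball t ht) (γ' t)
    have h2 := (abs_le.1 (g_close he (hball t ht) (γ' t))).2
    rw [hunit t ht] at h2
    simp only [hV']
    linarith
  have h0 : (0 : ℝ) ∈ Icc (0 : ℝ) τ := ⟨le_rfl, hτ⟩
  have h1 : τ ∈ Icc (0 : ℝ) τ := ⟨hτ, le_rfl⟩
  have hgrow : V 0 + (1 / 4) * τ ≤ V τ := by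
    have hcont : ContinuousOn V (Icc 0 τ) := fun t ht => (hderiv t ht).continuousWithinAt
    have hint : ∀ t ∈ interior (Icc (0 : ℝ) τ), HasDerivAt V (V' t) t := by
      intro t ht
      exact (hderiv t (interior_subset ht)).hasDerivAt (mem_interior_iff_mem_nhds.1 ht)
    have := (convex_Icc (0 : ℝ) τ).mul_sub_le_image_sub_of_le_deriv (C := 1 / 4) hcont
      (fun t ht => (hint t ht).differentiableAt.differentiableWithinAt)
      (fun t ht => by
        rw [(hint t ht).deriv]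
        exact hlow t (interior_subset ht)) 0 h0 τ h1 hτ
    linarith
  -- `V` is bounded
  have hbdd : ∀ t ∈ Icc (0 : ℝ) τ, |V t| ≤ (1 / 2) * ((9 / 8) * (‖W e‖ ^ 2) + 1) := by
    intro t ht
    have hx := hball t ht
    have hw : ⟪W e (γ t), W e (γ t)⟫ ≤ ‖W e‖ ^ 2 := by
      rw [real_inner_self_eq_norm_sq]
      have h1 := (W e).le_opNorm (γ t)
      have h2 : ‖γ t‖ ≤ 1 := by simpa using hx
      have h3 : ‖W e (γ t)‖ ≤ ‖W e‖ := by
        calc _ ≤ _ := h1
          _ ≤ ‖W e‖ * 1 := by gcongr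
          _ = _ := mul_one _
      gcongr
    have hgw := (abs_le.1 (g_close he hx (W e (γ t)))).2
    have hu := hunit t ht
    have hnn : ∀ v, 0 ≤ g e (γ t) v v := by
      intro v
      by_cases hv : v = 0
      · simp [hv]
      · exact (g_pos he hx v hv).le
    have hp := hnn (W e (γ t) + γ' t)
    have hm := hnn (W e (γ t) - γ' t)
    simp only [map_add, map_sub, add_apply, sub_apply] at hp hm
    rw [g_symm e (γ t) (γ' t) (W e (γ t)), hu] at hp hm
    rw [abs_le]
    simp only [hV]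
    constructor <;> linarith
  have hB0 := (abs_le.1 (hbdd 0 h0)).1
  have h2 := (abs_le.1 (hbdd τ h1)).2
  linarith

/-! ### No strictly convex function -/

/-- right multiplication by the quaternion unit `i` on the four distinguished coordinates -/
noncomputable def I (e : Fin 4 → E) : E →L[ℝ] E :=
  (X e 0).smulRight (e 1) - (X e 1).smulRight (e 0) + (X e 3).smulRight (e 2)
    - (X e 2).smulRight (e 3)

lemma X_I0 {e : Fin 4 → E} (he : Orthonormal ℝ e) (x : E) : X e 0 (I e x) = - X e 1 x := by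
  simp [I, X_e he]

lemma X_I1 {e : Fin 4 → E} (he : Orthonormal ℝ e) (x : E) : X e 1 (I e x) = X e 0 x := by
  simp [I, X_e he]

lemma X_I2 {e : Fin 4 → E} (he : Orthonormal ℝ e) (x : E) : X e 2 (I e x) = X e 3 x := by
  simp [I, X_e he]

lemma X_I3 {e : Fin 4 → E} (he : Orthonormal ℝ e) (x : E) : X e 3 (I e x) = - X e 2 x := by
  simp [I, X_e he]

lemma inner_I (e : Fin 4 → E) (v w : E) : ⟪I e v, w⟫ =
    X e 0 v * X e 1 w - X e 1 v * X e 0 w + X e 3 v * X e 2 w - X e 2 v * X e 3 w := by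
  have hX : ∀ j, ⟪e j, w⟫ = X e j w := fun j => rfl
  simp only [I, add_apply, sub_apply,
    ContinuousLinearMap.smulRight_apply, inner_add_left, inner_sub_left, real_inner_smul_left, hX]

lemma α_I {e : Fin 4 → E} (he : Orthonormal ℝ e) (x : E) : α e x (I e x) = S e x := by
  rw [α_apply, X_I0 he, X_I1 he, X_I2 he, X_I3 he, S]; ring

lemma β_I {e : Fin 4 → E} (he : Orthonormal ℝ e) (x : E) : β e x (I e x) = 0 := by
  rw [β_apply, X_I0 he, X_I1 he, X_I2 he, X_I3 he]; ring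

lemma α_K {e : Fin 4 → E} (he : Orthonormal ℝ e) (x : E) : α e x (K e x) = 0 := by
  rw [α_apply, X_K0 he, X_K1 he, X_K2 he, X_K3 he]; ring

lemma β_K {e : Fin 4 → E} (he : Orthonormal ℝ e) (x : E) : β e x (K e x) = 0 := by
  rw [β_apply, X_K0 he, X_K1 he, X_K2 he, X_K3 he]; ring

lemma β_I' {e : Fin 4 → E} (he : Orthonormal ℝ e) (x z : E) : β e (I e x) z = ⟪K e x, z⟫ := by
  rw [β_apply, X_I0 he, X_I1 he, X_I2 he, X_I3 he, inner_K]; ring

lemma inner_self_I (e : Fin 4 → E) (x : E) : ⟪x, I e x⟫ = 0 := by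
  rw [real_inner_comm, inner_I]; ring

lemma inner_self_K (e : Fin 4 → E) (x : E) : ⟪x, K e x⟫ = 0 := by
  rw [real_inner_comm, inner_K]; ring

/-- embedding of `ℝ⁴` -/
noncomputable def ι (e : Fin 4 → E) (y : Fin 4 → ℝ) : E :=
  y 0 • e 0 + y 1 • e 1 + y 2 • e 2 + y 3 • e 3

lemma X_ι {e : Fin 4 → E} (he : Orthonormal ℝ e) (y : Fin 4 → ℝ) (j : Fin 4) :
    X e j (ι e y) = y j := by
  fin_cases j <;> simp [ι, X_e he]

lemma inner_ι (e : Fin 4 → E) (y : Fin 4 → ℝ) (z : E) :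
    ⟪ι e y, z⟫ = y 0 * X e 0 z + y 1 * X e 1 z + y 2 * X e 2 z + y 3 * X e 3 z := by
  have hX : ∀ j, ⟪e j, z⟫ = X e j z := fun j => rfl
  simp only [ι, inner_add_left, real_inner_smul_left, hX]

lemma christoffel_unique [FiniteDimensional ℝ E] {e : Fin 4 → E} (he : Orthonormal ℝ e) {x : E}
    (hx : x ∈ closedBall (0 : E) 1) (v u : E)
    (h : ∀ z, g e x u z = dg e x v v z - (1 / 2) * dg e x z v v) :
    christoffel (g e) x v v = u := by
  by_contra hne
  have h1 := g_pos he hx (christoffel (g e) x v v - u) (sub_ne_zero.2 hne)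
  have h2 : g e x (christoffel (g e) x v v - u) = g e x (christoffel (g e) x v v) - g e x u :=
    map_sub _ _ _
  rw [h2, sub_apply, christoffel_spec (g e) x (g_pos he hx), h] at h1
  simp only [fderiv_g] at h1
  linarith

/-- the data of `g` at a point `x = ι y` with `|y|² = 1/2` -/
lemma at_half {e : Fin 4 → E} (he : Orthonormal ℝ e) {y : Fin 4 → ℝ}
    (hy : y 0 ^ 2 + y 1 ^ 2 + y 2 ^ 2 + y 3 ^ 2 = 1 / 2) :
    S e (ι e y) = 1 / 2 ∧ ⟪ι e y, ι e y⟫ = 1 / 2 ∧ A e (ι e y) = 0 ∧ C e (ι e y) = 1 / 4 ∧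
      (∀ z, dA e (ι e y) z = -10 * ⟪ι e y, z⟫) ∧ (∀ z, dC e (ι e y) z = -⟪ι e y, z⟫) := by
  have h1 : S e (ι e y) = 1 / 2 := by
    unfold S
    simp only [X_ι he]
    exact hy
  have h2 : ⟪ι e y, ι e y⟫ = 1 / 2 := by
    rw [inner_ι]
    simp only [X_ι he]
    linarith
  have h3 : ∀ z, S' e (ι e y) z = ⟪ι e y, z⟫ := by
    intro z
    rw [inner_ι, S']
    simp only [X_ι he]
  have h4 : (10 : ℝ) - 20 * (1 / 2) = 0 := by norm_num
  refine ⟨h1, h2, ?_, ?_, ?_, ?_⟩
  · rw [A, h1, h4, Real.sin_zero, mul_zero]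
  · rw [C, h1, h2, h4, Real.cos_zero]; norm_num
  · intro z
    rw [dA, h1, h2, h3, h4, Real.sin_zero, Real.cos_zero]; ring
  · intro z
    rw [dC, h1, h2, h3, h4, Real.sin_zero, Real.cos_zero]; ring

lemma half_mem {e : Fin 4 → E} (he : Orthonormal ℝ e) {y : Fin 4 → ℝ}
    (hy : y 0 ^ 2 + y 1 ^ 2 + y 2 ^ 2 + y 3 ^ 2 = 1 / 2) : ι e y ∈ ball (0 : E) 1 := by
  have h := (at_half he hy).2.1
  rw [real_inner_self_eq_norm_sq] at h
  rw [mem_ball_zero_iff]
  nlinarith [norm_nonneg (ι e y)]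

lemma christoffel_I [FiniteDimensional ℝ E] {e : Fin 4 → E} (he : Orthonormal ℝ e)
    {y : Fin 4 → ℝ} (hy : y 0 ^ 2 + y 1 ^ 2 + y 2 ^ 2 + y 3 ^ 2 = 1 / 2) :
    christoffel (g e) (ι e y) (I e (ι e y)) (I e (ι e y)) =
      (5 / 4 : ℝ) • ι e y + (1 / 4 : ℝ) • K e (ι e y) := by
  obtain ⟨hS, hxx, hA, hC, hdA, hdC⟩ := at_half he hy
  refine christoffel_unique he (ball_subset_closedBall (half_mem he hy)) _ _ fun z => ?_
  set x := ι e y
  have e1 : α e z (I e x) = - α e (I e x) z := α_anti e _ _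
  have e2 : β e z (I e x) = - ⟪K e x, z⟫ := by rw [β_anti e (I e x) z, β_I' he]
  simp only [map_add, map_smul, add_apply, smul_apply, smul_eq_mul, g_self]
  rw [g_apply, dg, dg, hA, hC, α_K he, β_K he, α_self, β_self, α_I he, β_I he, hS]
  simp only [hdA, hdC, inner_self_I]
  rw [e1, e2, β_I' he]
  ring

lemma christoffel_K [FiniteDimensional ℝ E] {e : Fin 4 → E} (he : Orthonormal ℝ e)
    {y : Fin 4 → ℝ} (hy : y 0 ^ 2 + y 1 ^ 2 + y 2 ^ 2 + y 3 ^ 2 = 1 / 2) :
    christoffel (g e) (ι e y) (K e (ι e y)) (K e (ι e y)) = 0 := by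
  obtain ⟨hS, hxx, hA, hC, hdA, hdC⟩ := at_half he hy
  refine christoffel_unique he (ball_subset_closedBall (half_mem he hy)) _ _ fun z => ?_
  set x := ι e y
  simp only [map_zero, zero_apply]
  rw [dg, dg, hA, hC, α_K he, β_K he, α_self, β_self]
  simp only [hdA, hdC, inner_self_K]
  ring

/-- second derivative test at a global maximum -/
lemma second_deriv_test {h h' : ℝ → ℝ} {h'' : ℝ} (h1 : ∀ t, HasDerivAt h (h' t) t)
    (h2 : HasDerivAt h' h'' 0) (hmax : ∀ t, h t ≤ h 0) : h'' ≤ 0 := by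
  by_contra hpos
  push Not at hpos
  have hd : deriv h = h' := by
    funext t
    exact (h1 t).deriv
  have hd2 : deriv (deriv h) 0 = h'' := by
    rw [hd]
    exact h2.deriv
  have hloc : IsLocalMax h 0 := Filter.Eventually.of_forall hmax
  have hd0 : deriv h 0 = 0 := hloc.deriv_eq_zero
  have hmin : IsLocalMin h 0 :=
    isLocalMin_of_deriv_deriv_pos (by rw [hd2]; exact hpos) hd0 (h1 0).continuousAt
  have hconst : h =ᶠ[nhds 0] fun _ => h 0 := by
    filter_upwards [hmin] with t ht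
    exact le_antisymm (hmax t) ht
  have h3 : deriv h =ᶠ[nhds 0] deriv (fun _ : ℝ => h 0) := hconst.deriv
  have h4 := h3.deriv_eq
  rw [hd2] at h4
  simp at h4
  linarith

/-- Second order information at a maximum point of `f` on the sphere `{ι y : |y|² = 1/2}`. -/
lemma max_info {e : Fin 4 → E} (he : Orthonormal ℝ e) {f : E → ℝ}
    (hf : ContDiffOn ℝ 2 f (ball 0 1)) {y y' : Fin 4 → ℝ}
    (hy : y 0 ^ 2 + y 1 ^ 2 + y 2 ^ 2 + y 3 ^ 2 = 1 / 2)
    (hy' : y' 0 ^ 2 + y' 1 ^ 2 + y' 2 ^ 2 + y' 3 ^ 2 = 1 / 2)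
    (hyy' : y 0 * y' 0 + y 1 * y' 1 + y 2 * y' 2 + y 3 * y' 3 = 0)
    (hmax : ∀ w : Fin 4 → ℝ, w 0 ^ 2 + w 1 ^ 2 + w 2 ^ 2 + w 3 ^ 2 = 1 / 2 →
      f (ι e w) ≤ f (ι e y)) :
    fderiv ℝ f (ι e y) (ι e y') = 0 ∧
      fderiv ℝ (fderiv ℝ f) (ι e y) (ι e y') (ι e y') ≤ fderiv ℝ f (ι e y) (ι e y) := by
  set x := ι e y with hx
  set v := ι e y' with hv
  let c : ℝ → E := fun t => Real.cos t • x + Real.sin t • v
  let c' : ℝ → E := fun t => -Real.sin t • x + Real.cos t • v
  have hc : ∀ t, HasDerivAt c (c' t) t := fun t =>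
    ((Real.hasDerivAt_cos t).smul_const x).add ((Real.hasDerivAt_sin t).smul_const v)
  have hc' : HasDerivAt c' (-x) 0 := by
    have := (((Real.hasDerivAt_sin 0).neg).smul_const x).add
      ((Real.hasDerivAt_cos 0).smul_const v)
    refine this.congr_deriv ?_
    simp
  have hcι : ∀ t, c t = ι e (fun j => Real.cos t * y j + Real.sin t * y' j) := by
    intro t
    simp only [c, hx, hv, ι]
    module
  have hcS : ∀ t, (fun j => Real.cos t * y j + Real.sin t * y' j) 0 ^ 2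
      + (fun j => Real.cos t * y j + Real.sin t * y' j) 1 ^ 2
      + (fun j => Real.cos t * y j + Real.sin t * y' j) 2 ^ 2
      + (fun j => Real.cos t * y j + Real.sin t * y' j) 3 ^ 2 = 1 / 2 := by
    intro t
    have := Real.sin_sq_add_cos_sq t
    simp only
    linear_combination (Real.cos t) ^ 2 * hy + (Real.sin t) ^ 2 * hy'
      + 2 * Real.cos t * Real.sin t * hyy' + (1 / 2) * this
  have hcball : ∀ t, c t ∈ ball (0 : E) 1 := by
    intro t
    rw [hcι t]
    exact half_mem he (hcS t)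
  have hfd : ∀ t, HasFDerivAt f (fderiv ℝ f (c t)) (c t) := by
    intro t
    have := (hf.contDiffAt (isOpen_ball.mem_nhds (hcball t))).differentiableAt (by norm_num)
    exact this.hasFDerivAt
  have h1 : ∀ t, HasDerivAt (fun t => f (c t)) (fderiv ℝ f (c t) (c' t)) t := fun t =>
    HasFDerivAt.comp_hasDerivAt (l := f) t (hfd t) (hc t)
  have hc0 : c 0 = x := by simp [c]
  have hc0' : c' 0 = v := by simp [c']
  have hfd2 : HasFDerivAt (fderiv ℝ f) (fderiv ℝ (fderiv ℝ f) x) x := by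
    have hxb : x ∈ ball (0 : E) 1 := hc0 ▸ hcball 0
    have h := hf.contDiffAt (isOpen_ball.mem_nhds hxb)
    have h' : ContDiffAt ℝ 1 (fderiv ℝ f) x := h.fderiv_right (by norm_num)
    exact (h'.differentiableAt (by norm_num)).hasFDerivAt
  have h2 : HasDerivAt (fun t => fderiv ℝ f (c t) (c' t))
      (fderiv ℝ (fderiv ℝ f) x v v + fderiv ℝ f x (-x)) 0 := by
    have h3 : HasDerivAt (fun t => fderiv ℝ f (c t)) (fderiv ℝ (fderiv ℝ f) x v) 0 := by
      have hfd2' : HasFDerivAt (fderiv ℝ f) (fderiv ℝ (fderiv ℝ f) x) (c 0) := by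
        rw [hc0]; exact hfd2
      have := HasFDerivAt.comp_hasDerivAt (f := c) (l := fderiv ℝ f) 0 hfd2' (hc 0)
      rw [hc0'] at this
      exact this
    have h4 := h3.clm_apply hc'
    rw [hc0, hc0'] at h4
    exact h4
  have hmax' : ∀ t, f (c t) ≤ f (c 0) := by
    intro t
    rw [hc0, hcι t]
    exact hmax _ (hcS t)
  constructor
  · have hloc : IsLocalMax (fun t => f (c t)) 0 := Filter.Eventually.of_forall hmax'
    have := hloc.hasDerivAt_eq_zero (h1 0)
    rwa [hc0, hc0'] at this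
  · have := second_deriv_test h1 h2 hmax'
    rw [map_neg] at this
    linarith

lemma I_ι {e : Fin 4 → E} (he : Orthonormal ℝ e) (y : Fin 4 → ℝ) :
    I e (ι e y) = ι e ![-y 1, y 0, y 3, -y 2] := by
  simp only [I, add_apply, sub_apply, ContinuousLinearMap.smulRight_apply, X_ι he]
  simp only [ι, Matrix.cons_val]
  module

lemma K_ι {e : Fin 4 → E} (he : Orthonormal ℝ e) (y : Fin 4 → ℝ) :
    K e (ι e y) = ι e ![-y 3, y 2, -y 1, y 0] := by
  simp only [K, add_apply, sub_apply, ContinuousLinearMap.smulRight_apply, X_ι he]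
  simp only [ι, Matrix.cons_val]
  module

lemma no_convex [FiniteDimensional ℝ E] {e : Fin 4 → E} (he : Orthonormal ℝ e) (f : E → ℝ)
    (hf : ContDiffOn ℝ 2 f (ball 0 1)) :
    ∃ x ∈ ball (0 : E) 1, ∃ v, v ≠ 0 ∧ hessian (g e) f x v v ≤ 0 := by
  -- the compact sphere
  let Q : Set (Fin 4 → ℝ) := {w | w 0 ^ 2 + w 1 ^ 2 + w 2 ^ 2 + w 3 ^ 2 = 1 / 2}
  have hQc : IsCompact Q := by
    have hcl : IsClosed Q := isClosed_eq (by fun_prop) continuous_const
    have hsub : Q ⊆ Set.pi univ fun _ : Fin 4 => Icc (-1 : ℝ) 1 := by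
      intro w hw j _
      have hw' : w 0 ^ 2 + w 1 ^ 2 + w 2 ^ 2 + w 3 ^ 2 = 1 / 2 := hw
      have : w j ^ 2 ≤ 1 := by
        obtain rfl | rfl | rfl | rfl : j = 0 ∨ j = 1 ∨ j = 2 ∨ j = 3 := by
          fin_cases j <;> simp
        all_goals
          nlinarith [sq_nonneg (w 0), sq_nonneg (w 1), sq_nonneg (w 2), sq_nonneg (w 3)]
      exact abs_le.1 (abs_le_one_iff_mul_self_le_one.2 (by nlinarith))
    exact (isCompact_univ_pi fun _ => isCompact_Icc).of_isClosed_subset hcl hsub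
  have hQn : Q.Nonempty := by
    refine ⟨![1 / 2, 1 / 2, 0, 0], ?_⟩
    have h : (![1 / 2, 1 / 2, 0, 0] : Fin 4 → ℝ) 0 ^ 2 + (![1 / 2, 1 / 2, 0, 0] : Fin 4 → ℝ) 1 ^ 2
        + (![1 / 2, 1 / 2, 0, 0] : Fin 4 → ℝ) 2 ^ 2 + (![1 / 2, 1 / 2, 0, 0] : Fin 4 → ℝ) 3 ^ 2
        = 1 / 2 := by
      simp only [Matrix.cons_val]
      norm_num
    exact h
  have hιc : Continuous (ι e) := by
    unfold ι
    fun_prop
  have hcont : ContinuousOn (fun w => f (ι e w)) Q := by
    refine hf.continuousOn.comp hιc.continuousOn ?_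
    intro w hw
    exact half_mem he hw
  obtain ⟨y, hyQ, hymax⟩ := hQc.exists_isMaxOn hQn hcont
  have hy : y 0 ^ 2 + y 1 ^ 2 + y 2 ^ 2 + y 3 ^ 2 = 1 / 2 := hyQ
  have hmax : ∀ w : Fin 4 → ℝ, w 0 ^ 2 + w 1 ^ 2 + w 2 ^ 2 + w 3 ^ 2 = 1 / 2 →
      f (ι e w) ≤ f (ι e y) := fun w hw => hymax hw
  obtain ⟨-, hI⟩ := max_info he hf (y' := ![-y 1, y 0, y 3, -y 2]) hy
    (by simp only [Matrix.cons_val]; linarith) (by simp only [Matrix.cons_val]; ring) hmax
  obtain ⟨hK0, hK⟩ := max_info he hf (y' := ![-y 3, y 2, -y 1, y 0]) hy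
    (by simp only [Matrix.cons_val]; linarith) (by simp only [Matrix.cons_val]; ring) hmax
  rw [← I_ι he] at hI
  rw [← K_ι he] at hK0 hK
  have hxx := (at_half he hy).2.1
  have hx0 : ι e y ≠ 0 := by
    intro h
    rw [h] at hxx
    norm_num at hxx
  refine ⟨ι e y, half_mem he hy, ?_⟩
  rcases le_total (fderiv ℝ f (ι e y) (ι e y)) 0 with hL | hL
  · refine ⟨K e (ι e y), ?_, ?_⟩
    · intro h
      have h1 : ⟪K e (ι e y), K e (ι e y)⟫ = 1 / 2 := by
        rw [inner_K, X_K0 he, X_K1 he, X_K2 he, X_K3 he]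
        simp only [X_ι he]
        linarith
      rw [h] at h1
      norm_num at h1
    · rw [hessian, christoffel_K he hy, map_zero]
      linarith
  · refine ⟨I e (ι e y), ?_, ?_⟩
    · intro h
      have h1 : ⟪I e (ι e y), I e (ι e y)⟫ = 1 / 2 := by
        rw [inner_I, X_I0 he, X_I1 he, X_I2 he, X_I3 he]
        simp only [X_ι he]
        linarith
      rw [h] at h1
      norm_num at h1
    · rw [hessian, christoffel_I he hy, map_add, map_smul, map_smul, hK0]
      simp only [smul_eq_mul]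
      linarith

end Construction

/-- **Negative answer to Q2 in every dimension `n ≥ 4`.**  For every `n ≥ 4` there is a smooth
Riemannian metric `g` on the closed unit ball `M` of `ℝⁿ` for which `(M, g)` is nontrapping, but
there is no strictly convex function on `M`: for every function `f` which is `C²` on the interior
of `M` the covariant Hessian of `f` fails to be positive definite at some interior point. -/
theorem result (n : ℕ) (hn : 4 ≤ n) :
    ∃ g : EuclideanSpace ℝ (Fin n) →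
        EuclideanSpace ℝ (Fin n) →L[ℝ] EuclideanSpace ℝ (Fin n) →L[ℝ] ℝ,
      IsRiemannianMetric g ∧ Nontrapping g ∧
        ∀ f : EuclideanSpace ℝ (Fin n) → ℝ, ContDiffOn ℝ 2 f (ball 0 1) →
          ∃ x ∈ ball (0 : EuclideanSpace ℝ (Fin n)) 1, ∃ v, v ≠ 0 ∧ hessian g f x v v ≤ 0 := by
  let e : Fin 4 → EuclideanSpace ℝ (Fin n) := fun j => EuclideanSpace.single (Fin.castLE hn j) 1
  have he : Orthonormal ℝ e := by
    have h := (EuclideanSpace.basisFun (Fin n) ℝ).orthonormal.comp (Fin.castLE hn)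
      (Fin.castLE_injective hn)
    have h2 : e = (EuclideanSpace.basisFun (Fin n) ℝ) ∘ Fin.castLE hn := by
      funext j
      simp [e]
    rw [h2]
    exact h
  exact ⟨g e, g_isRiemannianMetric he, nontrapping he, no_convex he⟩

end Pool.Agent.Lib_MP_a29272_old.NontrappingNoConvex
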